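import Pool.Agent.Helper19.HO.Defs

/-!
# Project HO (MP_19c155_gt), piece HO-11: linear algebra of isometries
-/

open MeasureTheory Set Metric Filter Module
open scoped NNReal Topology RealInnerProductSpace ENNReal Real ContDiff Manifold

namespace Pool.Agent.Helper19.HO

variable {E H ι : Type*} [NormedAddCommGroup E] [InnerProductSpace ℝ E] [NormedAddCommGroup H]
  [InnerProductSpace ℝ H] [Fintype ι] [FiniteDimensional ℝ E] [FiniteDimensional ℝ H]
  [MeasurableSpace E] [BorelSpace E]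

omit [MeasurableSpace E] [BorelSpace E] in
theorem det_adjoint_h96 (S : E →L[ℝ] E) : (S.adjoint).det = S.det := by
  have b := stdOrthonormalBasis ℝ E
  have h1 := LinearMap.toMatrix_adjoint b b (S : E →ₗ[ℝ] E)
  have h2 : (S.adjoint : E →L[ℝ] E).det
      = (LinearMap.toMatrix b.toBasis b.toBasis (LinearMap.adjoint (S : E →ₗ[ℝ] E))).det := by
    rw [LinearMap.det_toMatrix]
    rfl
  have h3 : S.det = (LinearMap.toMatrix b.toBasis b.toBasis (S : E →ₗ[ℝ] E)).det := by
    rw [LinearMap.det_toMatrix]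
  rw [h2, h3, h1, Matrix.det_conjTranspose]
  simp

omit [MeasurableSpace E] [BorelSpace E] in
theorem isom_adjoint_comp_h96 (Q : E →ₗᵢ[ℝ] H) :
    (Q.toContinuousLinearMap).adjoint ∘L Q.toContinuousLinearMap = 1 := by
  rw [← ContinuousLinearMap.norm_map_iff_adjoint_comp_self]
  intro x
  exact Q.norm_map x

omit [MeasurableSpace E] [BorelSpace E] in
theorem exists_polar (D : E →L[ℝ] H) (hD : Function.Injective D) :
    ∃ (Q : E →ₗᵢ[ℝ] H) (S : E →L[ℝ] E), D = Q.toContinuousLinearMap ∘L S ∧ Jac D = |S.det| := by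
  classical
  have hfr : finrank ℝ (LinearMap.range (D : E →ₗ[ℝ] H)) = finrank ℝ E :=
    LinearMap.finrank_range_of_inj hD
  let bR := (stdOrthonormalBasis ℝ (LinearMap.range (D : E →ₗ[ℝ] H))).reindex (finCongr hfr)
  let bE := stdOrthonormalBasis ℝ E
  let e : E ≃ₗᵢ[ℝ] (LinearMap.range (D : E →ₗ[ℝ] H)) := bE.repr.trans bR.repr.symm
  let Q : E →ₗᵢ[ℝ] H :=
    (LinearMap.range (D : E →ₗ[ℝ] H)).subtypeₗᵢ.comp e.toLinearIsometry
  let S : E →L[ℝ] E := LinearMap.toContinuousLinearMap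
    ((e.symm.toLinearEquiv : (LinearMap.range (D : E →ₗ[ℝ] H)) →ₗ[ℝ] E) ∘ₗ
      (D : E →ₗ[ℝ] H).rangeRestrict)
  have hDS : D = Q.toContinuousLinearMap ∘L S := by
    ext x
    have : Q (S x) = D x := by
      simp [Q, S]
    simpa using this.symm
  refine ⟨Q, S, hDS, ?_⟩
  have h1 : D.adjoint ∘L D = S.adjoint ∘L S := by
    rw [hDS, ContinuousLinearMap.adjoint_comp, ContinuousLinearMap.comp_assoc,
      ← ContinuousLinearMap.comp_assoc _ _ S, isom_adjoint_comp_h96]
    rfl
  unfold Jac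
  rw [h1]
  have h2 : (S.adjoint ∘L S).det = S.det ^ 2 := by
    have : (S.adjoint ∘L S).det = S.adjoint.det * S.det := by
      unfold ContinuousLinearMap.det
      exact LinearMap.det_comp _ _
    rw [this, det_adjoint_h96]
    ring
  rw [h2, Real.sqrt_sq_eq_abs]

omit [MeasurableSpace E] [BorelSpace E] in
theorem exists_extend (Q Q₀ : E →ₗᵢ[ℝ] H) : ∃ U : H ≃ₗᵢ[ℝ] H, ∀ x, U (Q₀ x) = Q x := by
  classical
  let L : (LinearMap.range Q₀.toLinearMap) →ₗᵢ[ℝ] H :=
    Q.comp Q₀.equivRange.symm.toLinearIsometry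
  refine ⟨L.extend.toLinearIsometryEquiv rfl, ?_⟩
  intro x
  have h1 := L.extend_apply (Q₀.equivRange x)
  have h2 : ((Q₀.equivRange x : LinearMap.range Q₀.toLinearMap) : H) = Q₀ x := rfl
  rw [h2] at h1
  rw [LinearIsometry.coe_toLinearIsometryEquiv, h1]
  simp [L]

omit [MeasurableSpace E] [BorelSpace E] in
theorem Jac_of_not_injective (D : E →L[ℝ] H) (hD : ¬ Function.Injective D) : Jac D = 0 := by
  unfold Jac
  have h : (D.adjoint ∘L D).det = 0 := by
    by_contra hne
    apply hD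
    have hu : IsUnit (LinearMap.det ((D.adjoint ∘L D : E →L[ℝ] E) : E →ₗ[ℝ] E)) :=
      isUnit_iff_ne_zero.2 hne
    have hinj : Function.Injective (D.adjoint ∘L D : E →L[ℝ] E) := by
      have := (LinearMap.isUnit_iff_isUnit_det _).2 hu
      have h3 := ((Module.End.isUnit_iff _).1 this).1
      exact h3
    intro x y hxy
    apply hinj
    simp [hxy]
  rw [h, Real.sqrt_zero]

omit [MeasurableSpace E] [BorelSpace E] in
theorem Jac_isometry (Q : E →ₗᵢ[ℝ] H) : Jac Q.toContinuousLinearMap = 1 := by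
  unfold Jac
  rw [isom_adjoint_comp_h96]
  have : (1 : E →L[ℝ] E).det = 1 := by
    unfold ContinuousLinearMap.det
    exact LinearMap.det_id
  rw [this, Real.sqrt_one]

end Pool.Agent.Helper19.HO
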